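import Mathlib

/-!
Lattice sets whose points have midpoints in the next set: a symmetric set of differences persists.
-/

set_option autoImplicit false

open Finset

namespace Pool.MPc7c4cf.Layers

variable {d : ℕ}

/-- An integral vector as a real vector. -/
def toR (z : Fin d → ℤ) : Fin d → ℝ := fun t => (z t : ℝ)

/-- The scalar product. -/
noncomputable def dot (u v : Fin d → ℝ) : ℝ := ∑ t, u t * v t

open Classical in
/-- For every half space `H`: at most `D (|P ∩ H| + 1)` points of `G` lie in `H` and in the convex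
hull of `P`. -/
def CapDense (D : ℕ) (G : Finset (Fin d → ℤ)) (P : Finset (Fin d → ℝ)) : Prop :=
  ∀ (u : Fin d → ℝ) (r : ℝ),
    (G.filter fun z => toR z ∈ convexHull ℝ (P : Set (Fin d → ℝ)) ∧ r ≤ dot u (toR z)).card ≤
      D * ((P.filter fun p => r ≤ dot u p).card + 1)

theorem toR_add (y z : Fin d → ℤ) : toR (y + z) = toR y + toR z := by
  funext t
  simp [toR]

theorem toR_neg (z : Fin d → ℤ) : toR (-z) = - toR z := by
  funext t
  simp [toR]

theorem toR_injective : Function.Injective (toR : (Fin d → ℤ) → Fin d → ℝ) := by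
  intro y z h
  funext t
  have := congrFun h t
  simpa [toR] using this

theorem dot_add (u y z : Fin d → ℝ) : dot u (y + z) = dot u y + dot u z := by
  unfold dot
  rw [← sum_add_distrib]
  apply sum_congr rfl
  intro t _
  simp only [Pi.add_apply]
  ring

theorem dot_neg (u z : Fin d → ℝ) : dot u (-z) = - dot u z := by
  unfold dot
  rw [← sum_neg_distrib]
  apply sum_congr rfl
  intro t _
  simp only [Pi.neg_apply]
  ring

/-- A functional which separates a point from a hull. -/
theorem exists_dot (P : Finset (Fin d → ℝ)) (y : Fin d → ℝ)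
    (hy : y ∉ convexHull ℝ (P : Set (Fin d → ℝ))) :
    ∃ u : Fin d → ℝ, ∀ p ∈ P, dot u p < dot u y := by
  have hclosed : IsClosed (convexHull ℝ (P : Set (Fin d → ℝ))) :=
    P.finite_toSet.isClosed_convexHull ℝ
  obtain ⟨f, u, h1, h2⟩ := geometric_hahn_banach_closed_point
    (convex_convexHull ℝ (P : Set (Fin d → ℝ))) hclosed hy
  have hf : ∀ z : Fin d → ℝ, f z =
      dot (fun t => f (fun j => if t = j then 1 else 0)) z := by
    intro z
    have h3 := LinearMap.pi_apply_eq_sum_univ f.toLinearMap z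
    rw [dot]
    refine h3.trans (sum_congr rfl fun t _ => ?_)
    rw [smul_eq_mul, mul_comm]
    rfl
  refine ⟨fun t => f (fun j => if t = j then 1 else 0), fun p hp => ?_⟩
  rw [← hf, ← hf]
  exact (h1 _ (subset_convexHull ℝ _ hp)).trans h2

/-- One step: a point `y` such that `y + S` belongs to the hull of one set belongs to the hull of
the next set. -/
theorem step (K N : ℕ) (P P' : Finset (Fin d → ℝ)) (G : Set (Fin d → ℤ))
    (S : Finset (Fin d → ℤ)) (y : Fin d → ℤ) (hS : ∀ s ∈ S, -s ∈ S) (hSc : 2 * N ≤ S.card)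
    (hG : ∀ (u : Fin d → ℝ) (r : ℝ) (F : Finset (Fin d → ℤ)),
      (∀ z ∈ F, z ∈ G ∧ r ≤ dot u (toR z)) → N ≤ F.card →
      K ≤ (P.filter fun p => r ≤ dot u p).card)
    (hK : ∀ F ⊆ P, K ≤ F.card → ∃ p ∈ F, ∃ q ∈ F, ∃ z ∈ P', p + q = z + z)
    (hy : ∀ s ∈ S, y + s ∈ G) :
    toR y ∈ convexHull ℝ (P' : Set (Fin d → ℝ)) := by
  classical
  by_contra hcon
  obtain ⟨u, hu⟩ := exists_dot P' (toR y) hcon
  set S' := S.filter fun s => 0 ≤ dot u (toR s) with hS'
  have h1 : (S.filter fun s => ¬ 0 ≤ dot u (toR s)).card ≤ S'.card := by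
    apply card_le_card_of_injOn (fun s => -s)
    · intro s hs
      obtain ⟨h2, h3⟩ := mem_filter.mp (mem_coe.mp hs)
      refine mem_coe.mpr (mem_filter.mpr ⟨hS s h2, ?_⟩)
      rw [toR_neg, dot_neg]
      linarith
    · intro s _ s' _ h
      simpa using h
  have h2 : N ≤ S'.card := by
    have h3 : S'.card + (S.filter fun s => ¬ 0 ≤ dot u (toR s)).card = S.card :=
      card_filter_add_card_filter_not (s := S) (fun s => 0 ≤ dot u (toR s))
    omega
  have h3 := hG u (dot u (toR y)) (S'.image fun s => y + s) (by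
    intro z hz
    obtain ⟨s, hs, rfl⟩ := mem_image.mp hz
    obtain ⟨h4, h5⟩ := mem_filter.mp hs
    refine ⟨hy s h4, ?_⟩
    rw [toR_add, dot_add]
    linarith) (by
    rw [card_image_of_injective _ (add_right_injective y)]
    exact h2)
  obtain ⟨p, hp, q, hq, z, hz, hpq⟩ := hK _ (filter_subset _ _) h3
  have h4 := (mem_filter.mp hp).2
  have h5 := (mem_filter.mp hq).2
  have h6 := congrArg (dot u) hpq
  rw [dot_add, dot_add] at h6
  have h7 := hu z hz
  linarith

/-- Sums of `n` elements of `S`. -/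
def sums (S : Finset (Fin d → ℤ)) : ℕ → Set (Fin d → ℤ)
  | 0 => {0}
  | n + 1 => {y | ∃ z ∈ sums S n, ∃ s ∈ S, y = z + s}

theorem sums_add (S : Finset (Fin d → ℤ)) (m n : ℕ) :
    ∀ y ∈ sums S (m + n), ∃ y₁ ∈ sums S m, ∃ y₂ ∈ sums S n, y = y₁ + y₂ := by
  induction n with
  | zero =>
    intro y hy
    exact ⟨y, hy, 0, rfl, (add_zero y).symm⟩
  | succ n ih =>
    rintro y ⟨z, hz, s, hs, rfl⟩
    obtain ⟨y₁, h1, y₂, h2, rfl⟩ := ih z hz
    exact ⟨y₁, h1, y₂ + s, ⟨y₂, h2, s, hs, rfl⟩, add_assoc _ _ _⟩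

theorem sums_nonempty (S : Finset (Fin d → ℤ)) (hS : S.Nonempty) (n : ℕ) :
    (sums S n).Nonempty := by
  induction n with
  | zero => exact ⟨0, rfl⟩
  | succ n ih =>
    obtain ⟨y, hy⟩ := ih
    obtain ⟨s, hs⟩ := hS
    exact ⟨y + s, y, hy, s, hs, rfl⟩

/-- A symmetric set `S` with `x + T S` in the first set lets all sets up to `P T` be nonempty. -/
theorem persist (K D T : ℕ) (P : ℕ → Finset (Fin d → ℝ)) (G : Finset (Fin d → ℤ))
    (S : Finset (Fin d → ℤ)) (x : Fin d → ℤ) (hS : ∀ s ∈ S, -s ∈ S) (h0S : 0 ∈ S)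
    (hSc : 2 * (D * (K + 1)) ≤ S.card) (hD1 : 1 ≤ D)
    (h0 : ∀ (u : Fin d → ℝ) (r : ℝ), D * (K + 1) ≤ (G.filter fun z => r ≤ dot u (toR z)).card →
      K ≤ ((P 0).filter fun p => r ≤ dot u p).card)
    (hD : ∀ j, CapDense D G (P (j + 1)))
    (hK : ∀ j, ∀ F ⊆ P j, K ≤ F.card → ∃ p ∈ F, ∃ q ∈ F, ∃ z ∈ P (j + 1), p + q = z + z)
    (hG : ∀ y ∈ sums S T, x + y ∈ G) : ∀ j, j + 1 ≤ T → (P (j + 1)).Nonempty := by
  classical
  have hG' : ∀ k, ∀ y ∈ sums S (T - k), x + y ∈ G := by
    intro k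
    induction k with
    | zero => exact hG
    | succ k ih =>
      intro y hy
      by_cases hk : k + 1 ≤ T
      · apply ih
        have h1 : T - k = (T - (k + 1)) + 1 := by omega
        rw [h1]
        exact ⟨y, hy, 0, h0S, (add_zero y).symm⟩
      · have h1 : T - k = T - (k + 1) := by omega
        rw [← h1] at hy
        exact ih y hy
  have key : ∀ j, j + 1 ≤ T → ∀ y ∈ sums S (T - (j + 1)),
      toR (x + y) ∈ convexHull ℝ (P (j + 1) : Set (Fin d → ℝ)) := by
    intro j
    induction j with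
    | zero =>
      intro hT y hy
      apply step K (D * (K + 1)) (P 0) (P 1) (G : Set (Fin d → ℤ)) S (x + y) hS hSc _ (hK 0)
      · intro s hs
        rw [add_assoc]
        apply hG
        have hT' : T = (T - (0 + 1)) + 1 := by omega
        rw [hT']
        exact ⟨y, hy, s, hs, rfl⟩
      · intro u r F hF hFc
        apply h0 u r
        refine hFc.trans (card_le_card fun z hz => ?_)
        exact mem_filter.mpr ⟨mem_coe.mp (hF z hz).1, (hF z hz).2⟩
    | succ j ih =>
      intro hT y hy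
      apply step K (D * (K + 1)) (P (j + 1)) (P (j + 1 + 1))
        {z | z ∈ G ∧ toR z ∈ convexHull ℝ (P (j + 1) : Set (Fin d → ℝ))} S (x + y) hS hSc _
        (hK (j + 1))
      · intro s hs
        rw [add_assoc]
        have hmem : y + s ∈ sums S (T - (j + 1)) := by
          have hT' : T - (j + 1) = (T - (j + 1 + 1)) + 1 := by omega
          rw [hT']
          exact ⟨y, hy, s, hs, rfl⟩
        exact ⟨hG' _ _ hmem, ih (by omega) _ hmem⟩
      · intro u r F hF hFc
        have h3 : F ⊆ G.filter fun z => toR z ∈ convexHull ℝ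
            (P (j + 1) : Set (Fin d → ℝ)) ∧ r ≤ dot u (toR z) := fun z hz =>
          mem_filter.mpr ⟨(hF z hz).1.1, (hF z hz).1.2, (hF z hz).2⟩
        have h1 := hFc.trans ((card_le_card h3).trans (hD j u r))
        have h2 := Nat.le_of_mul_le_mul_left h1 hD1
        omega
  intro j hj
  obtain ⟨y, hy⟩ := sums_nonempty S ⟨0, h0S⟩ (T - (j + 1))
  have h1 := key j hj y hy
  exact coe_nonempty.mp (convexHull_nonempty_iff.mp ⟨_, h1⟩)

/-- Parities of the coordinates. -/
def par (z : Fin d → ℤ) : Fin d → ℤ := fun t => z t % 2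

theorem exists_mid {p q : Fin d → ℤ} (h : par p = par q) : ∃ z, p + q = z + z := by
  refine ⟨fun t => (p t + q t) / 2, ?_⟩
  funext t
  have h1 := congrFun h t
  simp only [par] at h1
  simp only [Pi.add_apply]
  omega

theorem par_eq_of_mid {p q z : Fin d → ℤ} (h : p + q = z + z) : par p = par q := by
  funext t
  have h1 := congrFun h t
  simp only [Pi.add_apply] at h1
  simp only [par]
  omega

/-- A most popular value. -/
theorem exists_fiber {α β : Type*} [DecidableEq β] (f : α → β) (G : Finset α)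
    (hG : G.Nonempty) : ∃ b ∈ G.image f, G.card ≤ (G.image f).card *
      (G.filter fun x => f x = b).card := by
  obtain ⟨b, hb, hmax⟩ := (G.image f).exists_max_image
    (fun b => (G.filter fun x => f x = b).card) (hG.image f)
  refine ⟨b, hb, ?_⟩
  rw [mul_comm]
  exact card_le_mul_card_image G _ hmax

/-- The descent to a residue class modulo `2 ^ i`. -/
theorem descend (G : Finset (Fin d → ℤ)) (c : ℕ)
    (hc : ∀ (i : ℕ) (x : Fin d → ℤ) (Z : Finset (Fin d → ℤ)),
      (∀ z, z ∈ Z ↔ x + 2 ^ i * z ∈ G) → (Z.image par).card ≤ c) (i : ℕ) :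
    ∃ (x : Fin d → ℤ) (Z : Finset (Fin d → ℤ)), (∀ z, z ∈ Z ↔ x + 2 ^ i * z ∈ G) ∧
      G.card ≤ c ^ i * Z.card := by
  classical
  induction i with
  | zero =>
    refine ⟨0, G, fun z => ?_, by simp⟩
    simp
  | succ i ih =>
    obtain ⟨x, Z, hZ, hcard⟩ := ih
    rcases Z.eq_empty_or_nonempty with h0 | hne
    · refine ⟨x, ∅, fun z => ?_, ?_⟩
      · constructor
        · intro h
          exact absurd h (notMem_empty _)
        · intro h
          have h1 : x + 2 ^ (i + 1) * z = x + 2 ^ i * (2 * z) := by ring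
          rw [h1, ← hZ, h0] at h
          exact absurd h (notMem_empty _)
      · rw [h0] at hcard
        simpa using hcard
    · obtain ⟨b, hb, hfib⟩ := exists_fiber par Z hne
      obtain ⟨z₁, hz₁, hb1⟩ := mem_image.mp hb
      set Y := (Z.filter fun z => par z = b) with hY
      refine ⟨x + 2 ^ i * z₁, Y.image fun z => fun t => (z t - z₁ t) / 2, fun z => ?_, ?_⟩
      · have h1 : x + 2 ^ i * z₁ + 2 ^ (i + 1) * z = x + 2 ^ i * (z₁ + 2 * z) := by ring
        rw [h1, ← hZ]
        constructor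
        · intro h
          obtain ⟨w, hw, rfl⟩ := mem_image.mp h
          obtain ⟨hw1, hw2⟩ := mem_filter.mp hw
          have h2 : z₁ + 2 * (fun t => (w t - z₁ t) / 2 : Fin d → ℤ) = w := by
            funext t
            have h3 := congrFun (hw2.trans hb1.symm) t
            simp only [par] at h3
            simp only [Pi.add_apply, Pi.mul_apply, Pi.ofNat_apply]
            omega
          rw [h2]
          exact hw1
        · intro h
          refine mem_image.mpr ⟨z₁ + 2 * z, mem_filter.mpr ⟨h, ?_⟩, ?_⟩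
          · rw [← hb1]
            funext t
            simp only [par, Pi.add_apply, Pi.mul_apply, Pi.ofNat_apply]
            omega
          · funext t
            simp only [Pi.add_apply, Pi.mul_apply, Pi.ofNat_apply]
            omega
      · have hinj : (Y.image fun z => fun t => (z t - z₁ t) / 2).card = Y.card := by
          apply card_image_of_injOn
          intro z hz w hw h
          obtain ⟨_, hz2⟩ := mem_filter.mp (mem_coe.mp hz)
          obtain ⟨_, hw2⟩ := mem_filter.mp (mem_coe.mp hw)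
          funext t
          have h3 := congrFun (hz2.trans hb1.symm) t
          have h4 := congrFun (hw2.trans hb1.symm) t
          have h5 := congrFun h t
          simp only [par] at h3 h4
          simp only at h5
          omega
        rw [hinj, pow_succ, mul_assoc]
        exact hcard.trans (Nat.mul_le_mul_left _ (hfib.trans
          (Nat.mul_le_mul_right _ (hc i x Z hZ))))

/-- A midpoint closed set with few parities contains a large symmetric set. -/
theorem exists_symm (Z : Finset (Fin d → ℤ)) (c : ℕ) (hc : (Z.image par).card ≤ c)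
    (hne : Z.Nonempty) (hmid : ∀ p ∈ Z, ∀ q ∈ Z, ∀ z, p + q = z + z → z ∈ Z) :
    ∃ (z₀ : Fin d → ℤ) (S : Finset (Fin d → ℤ)), 0 ∈ S ∧ (∀ s ∈ S, -s ∈ S) ∧
      (∀ s ∈ S, z₀ + s ∈ Z) ∧ Z.card ≤ c * S.card := by
  classical
  set r : (Fin d → ℤ) → Finset (Fin d → ℤ) := fun z₀ => Z.filter fun p => z₀ + z₀ - p ∈ Z with hr
  have h1 : (Z.card) ^ 2 ≤ c * ∑ z₀ ∈ Z, (r z₀).card := by
    have h2 : Z.card = ∑ κ ∈ Z.image par, (Z.filter fun z => par z = κ).card :=
      card_eq_sum_card_image par Z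
    have h3 : ∑ p ∈ Z, (Z.filter fun q => par q = par p).card =
        ∑ κ ∈ Z.image par, (Z.filter fun z => par z = κ).card ^ 2 := by
      have h4 := sum_comp (s := Z) (fun κ => (Z.filter fun q => par q = κ).card) par
      rw [h4]
      apply sum_congr rfl
      intro κ _
      rw [smul_eq_mul, sq]
    have h5 : ∑ p ∈ Z, (Z.filter fun q => par q = par p).card ≤
        ∑ p ∈ Z, (Z.filter fun z₀ => z₀ + z₀ - p ∈ Z).card := by
      apply sum_le_sum
      intro p hp
      apply card_le_card_of_injOn (fun q => fun t => (p t + q t) / 2)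
      · intro q hq
        obtain ⟨hq1, hq2⟩ := mem_filter.mp (mem_coe.mp hq)
        have h6 : p + q = (fun t => (p t + q t) / 2) + (fun t => (p t + q t) / 2) := by
          funext t
          have h7 := congrFun hq2 t
          simp only [par] at h7
          simp only [Pi.add_apply]
          omega
        refine mem_coe.mpr (mem_filter.mpr ⟨hmid p hp q hq1 _ h6, ?_⟩)
        rw [← h6, add_sub_cancel_left]
        exact hq1
      · intro q hq q' hq' h
        obtain ⟨_, hq2⟩ := mem_filter.mp (mem_coe.mp hq)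
        obtain ⟨_, hq2'⟩ := mem_filter.mp (mem_coe.mp hq')
        funext t
        have h7 := congrFun hq2 t
        have h8 := congrFun hq2' t
        have h9 := congrFun h t
        simp only [par] at h7 h8
        simp only at h9
        omega
    have h6 : ∑ p ∈ Z, (Z.filter fun z₀ => z₀ + z₀ - p ∈ Z).card = ∑ z₀ ∈ Z, (r z₀).card := by
      simp only [hr, card_filter]
      exact sum_comm
    rw [← h6]
    refine le_trans ?_ (Nat.mul_le_mul_left c h5)
    rw [h3]
    conv_lhs => rw [h2]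
    refine (sq_sum_le_card_mul_sum_sq).trans ?_
    exact Nat.mul_le_mul_right _ hc
  obtain ⟨z₀, hz₀, hmax⟩ := Z.exists_max_image (fun z₀ => (r z₀).card) hne
  have h2 : ∑ z ∈ Z, (r z).card ≤ Z.card * (r z₀).card := by
    rw [← smul_eq_mul]
    exact sum_le_card_nsmul _ _ _ hmax
  have h3 : Z.card ≤ c * (r z₀).card := by
    have h4 : Z.card * Z.card ≤ Z.card * (c * (r z₀).card) := by
      calc Z.card * Z.card = Z.card ^ 2 := by ring
        _ ≤ c * ∑ z ∈ Z, (r z).card := h1
        _ ≤ c * (Z.card * (r z₀).card) := Nat.mul_le_mul_left _ h2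
        _ = _ := by ring
    exact Nat.le_of_mul_le_mul_left h4 (card_pos.mpr hne)
  refine ⟨z₀, (r z₀).image fun p => p - z₀, ?_, ?_, ?_, ?_⟩
  · refine mem_image.mpr ⟨z₀, mem_filter.mpr ⟨hz₀, ?_⟩, sub_self z₀⟩
    rw [add_sub_cancel_right]
    exact hz₀
  · intro s hs
    obtain ⟨p, hp, rfl⟩ := mem_image.mp hs
    obtain ⟨hp1, hp2⟩ := mem_filter.mp hp
    refine mem_image.mpr ⟨z₀ + z₀ - p, mem_filter.mpr ⟨hp2, ?_⟩, ?_⟩
    · have : z₀ + z₀ - (z₀ + z₀ - p) = p := by abel
      rw [this]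
      exact hp1
    · abel
  · intro s hs
    obtain ⟨p, hp, rfl⟩ := mem_image.mp hs
    have : z₀ + (p - z₀) = p := by abel
    rw [this]
    exact (mem_filter.mp hp).1
  · rw [card_image_of_injective _ (sub_left_injective)]
    exact h3

/-- Iterated midpoints. -/
theorem sums_mid (G : Set (Fin d → ℤ)) (S : Finset (Fin d → ℤ)) (x : Fin d → ℤ) (a : ℕ)
    (hmid : ∀ p ∈ G, ∀ q ∈ G, ∀ z, p + q = z + z → z ∈ G)
    (h : ∀ s ∈ S, x + 2 ^ a * s ∈ G) : ∀ y ∈ sums S (2 ^ a), x + y ∈ G := by
  have key : ∀ k ≤ a, ∀ y ∈ sums S (2 ^ k), x + 2 ^ (a - k) * y ∈ G := by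
    intro k
    induction k with
    | zero =>
      rintro _ y ⟨z, hz, s, hs, rfl⟩
      have hz0 : z = 0 := hz
      rw [hz0, zero_add]
      exact h s hs
    | succ k ih =>
      intro hk y hy
      rw [pow_succ, mul_two] at hy
      obtain ⟨y₁, h1, y₂, h2, rfl⟩ := sums_add S _ _ y hy
      refine hmid _ (ih (by omega) y₁ h1) _ (ih (by omega) y₂ h2) _ ?_
      have h3 : a - k = (a - (k + 1)) + 1 := by omega
      rw [h3]
      ring
  intro y hy
  have h1 := key a le_rfl y hy
  simpa using h1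

/-- A midpoint closed set whose residue classes have at most `c` parities contains a dilate by
`2 ^ a` of a large symmetric set. -/
theorem large_symm (a c : ℕ) (G : Finset (Fin d → ℤ)) (hG : G.Nonempty)
    (hmid : ∀ p ∈ G, ∀ q ∈ G, ∀ z, p + q = z + z → z ∈ G)
    (hc : ∀ (i : ℕ) (x : Fin d → ℤ) (Z : Finset (Fin d → ℤ)),
      (∀ z, z ∈ Z ↔ x + 2 ^ i * z ∈ G) → (Z.image par).card ≤ c) :
    ∃ (x : Fin d → ℤ) (S : Finset (Fin d → ℤ)), 0 ∈ S ∧ (∀ s ∈ S, -s ∈ S) ∧
      (∀ s ∈ S, x + 2 ^ a * s ∈ G) ∧ G.card ≤ c ^ (a + 1) * S.card := by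
  classical
  obtain ⟨x, Z, hZ, hcard⟩ := descend G c hc a
  have hne : Z.Nonempty := by
    rw [nonempty_iff_ne_empty]
    intro h1
    rw [h1] at hcard
    simp only [card_empty, mul_zero] at hcard
    have h2 := card_pos.mpr hG
    omega
  have hmidZ : ∀ p ∈ Z, ∀ q ∈ Z, ∀ z, p + q = z + z → z ∈ Z := by
    intro p hp q hq z hz
    rw [hZ] at hp hq ⊢
    refine hmid _ hp _ hq _ ?_
    have h2 : x + 2 ^ a * p + (x + 2 ^ a * q) = x + x + 2 ^ a * (p + q) := by ring
    rw [h2, hz]
    ring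
  obtain ⟨z₀, S, h0S, hS, hS0, hSc⟩ := exists_symm Z c (hc a x Z hZ) hne hmidZ
  refine ⟨x + 2 ^ a * z₀, S, h0S, hS, ?_, ?_⟩
  · intro s hs
    have h4 := (hZ _).mp (hS0 s hs)
    have h5 : x + 2 ^ a * z₀ + 2 ^ a * s = x + 2 ^ a * (z₀ + s) := by ring
    rw [h5]
    exact h4
  · refine hcard.trans ?_
    rw [pow_succ, mul_assoc]
    exact Nat.mul_le_mul_left _ hSc

/-- Symmetric sets with a dilate by `2 ^ a` in the first set are small if one of the next `2 ^ a`
sets is empty. -/
theorem small_symm (K D a : ℕ) (P : ℕ → Finset (Fin d → ℝ)) (G : Finset (Fin d → ℤ))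
    (hD1 : 1 ≤ D) (hmid : ∀ p ∈ G, ∀ q ∈ G, ∀ z, p + q = z + z → z ∈ G)
    (h0 : ∀ (u : Fin d → ℝ) (r : ℝ), D * (K + 1) ≤ (G.filter fun z => r ≤ dot u (toR z)).card →
      K ≤ ((P 0).filter fun p => r ≤ dot u p).card)
    (hD : ∀ j, CapDense D G (P (j + 1)))
    (hK : ∀ j, ∀ F ⊆ P j, K ≤ F.card → ∃ p ∈ F, ∃ q ∈ F, ∃ z ∈ P (j + 1), p + q = z + z)
    (hP : ∃ j, j + 1 ≤ 2 ^ a ∧ P (j + 1) = ∅) (S : Finset (Fin d → ℤ)) (x : Fin d → ℤ)
    (h0S : 0 ∈ S) (hS : ∀ s ∈ S, -s ∈ S) (hxS : ∀ s ∈ S, x + 2 ^ a * s ∈ G) :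
    S.card ≤ 2 * (D * (K + 1)) := by
  by_contra hcon
  push Not at hcon
  obtain ⟨j, hj, hPj⟩ := hP
  have h3 := persist K D (2 ^ a) P G S x hS h0S hcon.le hD1 h0 hD hK
    (sums_mid (G : Set (Fin d → ℤ)) S _ a (fun p hp q hq z hz => mem_coe.mpr
      (hmid p (mem_coe.mp hp) q (mem_coe.mp hq) z hz)) fun s hs => mem_coe.mpr (hxS s hs)) j hj
  rw [hPj] at h3
  exact not_nonempty_empty h3

/-- The parities in the residue classes of a midpoint closed set without `K` points of different
parities. -/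
theorem card_par_le (G : Finset (Fin d → ℤ)) (l : ℕ)
    (hmid : ∀ p ∈ G, ∀ q ∈ G, ∀ z, p + q = z + z → z ∈ G)
    (hK : ∀ F ⊆ G, l + 1 ≤ F.card → ∃ p ∈ F, ∃ q ∈ F, p ≠ q ∧ ∃ z, p + q = z + z) (i : ℕ)
    (x : Fin d → ℤ) (Z : Finset (Fin d → ℤ)) (hZ : ∀ z, z ∈ Z ↔ x + 2 ^ i * z ∈ G) :
    (Z.image par).card ≤ l := by
  classical
  by_contra hcon
  push Not at hcon
  have hex : ∀ κ ∈ Z.image par, ∃ z ∈ Z, par z = κ := fun κ hκ => mem_image.mp hκ
  choose! w hw1 hw2 using hex
  obtain ⟨z₁, hz₁⟩ : Z.Nonempty := by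
    rw [← image_nonempty (f := par)]
    exact card_pos.mp (by omega)
  have hpt : ∀ z ∈ Z, x + z + (2 ^ i - 1) * z₁ ∈ G := by
    intro z hz
    have key : ∀ k ≤ i, x + 2 ^ i * z₁ + 2 ^ (i - k) * (z - z₁) ∈ G := by
      intro k
      induction k with
      | zero =>
        intro _
        have h1 : x + 2 ^ i * z₁ + 2 ^ (i - 0) * (z - z₁) = x + 2 ^ i * z := by
          rw [Nat.sub_zero]
          ring
        rw [h1]
        exact (hZ z).mp hz
      | succ k ih =>
        intro hk
        refine hmid _ ((hZ z₁).mp hz₁) _ (ih (by omega)) _ ?_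
        have h3 : i - k = (i - (k + 1)) + 1 := by omega
        rw [h3]
        ring
    have h1 := key i le_rfl
    have h2 : x + 2 ^ i * z₁ + 2 ^ (i - i) * (z - z₁) = x + z + (2 ^ i - 1) * z₁ := by
      rw [Nat.sub_self]
      ring
    rw [← h2]
    exact h1
  set g : (Fin d → ℤ) → (Fin d → ℤ) := fun κ => x + w κ + (2 ^ i - 1) * z₁ with hg
  have hpar : ∀ κ ∈ Z.image par, ∀ κ' ∈ Z.image par, par (g κ) = par (g κ') → κ = κ' := by
    intro κ hκ κ' hκ' h
    rw [← hw2 κ hκ, ← hw2 κ' hκ']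
    funext t
    have h1 := congrFun h t
    simp only [par, hg, Pi.add_apply] at h1
    simp only [par]
    omega
  have h1 := hK ((Z.image par).image g) (by
    intro p hp
    obtain ⟨κ, hκ, rfl⟩ := mem_image.mp hp
    exact hpt _ (hw1 κ hκ)) (by
    rw [card_image_of_injOn]
    · omega
    · intro κ hκ κ' hκ' h
      exact hpar κ (mem_coe.mp hκ) κ' (mem_coe.mp hκ') (congrArg par h))
  obtain ⟨p, hp, q, hq, hpq, z, hz⟩ := h1
  obtain ⟨κ, hκ, rfl⟩ := mem_image.mp hp
  obtain ⟨κ', hκ', rfl⟩ := mem_image.mp hq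
  exact hpq (congrArg g (hpar κ hκ κ' hκ' (par_eq_of_mid hz)))

/-- Removing caps with few points of `P`. -/
theorem core (D : ℕ) : ∀ (n : ℕ) (P G : Finset (Fin d → ℤ)), G.card = n → P ⊆ G →
    (∀ p ∈ G, ∀ q ∈ G, ∀ z, p + q = z + z → z ∈ G) →
    ∃ P' ⊆ P, ∃ G' ⊆ G, P' ⊆ G' ∧ (∀ p ∈ G', ∀ q ∈ G', ∀ z, p + q = z + z → z ∈ G') ∧
      (∀ (u : Fin d → ℝ) (r : ℝ), (G'.filter fun p => r ≤ dot u (toR p)).card ≤
        D * ((P'.filter fun p => r ≤ dot u (toR p)).card + 1)) ∧
      P.card * D + G'.card ≤ P'.card * D + G.card := by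
  intro n
  induction n using Nat.strong_induction_on with
  | _ n ih =>
    intro P G hn hPG hmid
    by_cases hcap : ∀ (u : Fin d → ℝ) (r : ℝ), (G.filter fun p => r ≤ dot u (toR p)).card ≤
        D * ((P.filter fun p => r ≤ dot u (toR p)).card + 1)
    · exact ⟨P, Subset.refl P, G, Subset.refl G, hPG, hmid, hcap, le_rfl⟩
    · push Not at hcap
      obtain ⟨u, r, hur⟩ := hcap
      have hGs : (G.filter fun p => r ≤ dot u (toR p)).card +
          (G.filter fun p => ¬ r ≤ dot u (toR p)).card = G.card :=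
        card_filter_add_card_filter_not _
      have hPs : (P.filter fun p => r ≤ dot u (toR p)).card +
          (P.filter fun p => ¬ r ≤ dot u (toR p)).card = P.card :=
        card_filter_add_card_filter_not _
      obtain ⟨P', hP', G', hG', h1, h2, h3, h4⟩ :=
        ih (G.filter fun p => ¬ r ≤ dot u (toR p)).card
        (by omega) (P.filter fun p => ¬ r ≤ dot u (toR p))
        (G.filter fun p => ¬ r ≤ dot u (toR p)) rfl
        (filter_subset_filter _ hPG) (by
          intro p hp q hq z hz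
          obtain ⟨hp1, hp2⟩ := mem_filter.mp hp
          obtain ⟨hq1, hq2⟩ := mem_filter.mp hq
          refine mem_filter.mpr ⟨hmid p hp1 q hq1 z hz, ?_⟩
          have h6 := congrArg (fun y => dot u (toR y)) hz
          simp only [toR_add, dot_add] at h6
          push Not at hp2 hq2 ⊢
          linarith)
      refine ⟨P', hP'.trans (filter_subset _ _), G', hG'.trans (filter_subset _ _), h1, h2, h3, ?_⟩
      have h5 : (P.filter fun p => r ≤ dot u (toR p)).card * D ≤
          (G.filter fun p => r ≤ dot u (toR p)).card := by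
        refine le_trans ?_ hur.le
        rw [mul_comm]
        exact Nat.mul_le_mul_left _ (Nat.le_succ _)
      have h6 : P.card * D = (P.filter fun p => r ≤ dot u (toR p)).card * D +
          (P.filter fun p => ¬ r ≤ dot u (toR p)).card * D := by
        rw [← add_mul, hPs]
      omega

open Pointwise in
/-- The number of parities of a set with small doubling. -/
theorem card_par_mul_le (Q : Finset (Fin d → ℤ)) (C : ℕ) (hQ : Q.Nonempty)
    (hd : (Q + Q).card ≤ C * Q.card) : (Q.image par).card ≤ C ^ 3 := by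
  classical
  have hQ0 : (0 : NNRat) < Q.card := by exact_mod_cast card_pos.mpr hQ
  have h1 := pluennecke_ruzsa_inequality_nsmul_add hQ Q 3
  have h2 : ((Q + Q).card : NNRat) / Q.card ≤ C := by
    rw [div_le_iff₀ hQ0]
    exact_mod_cast hd
  have h3 : ((3 • Q).card : NNRat) ≤ (C ^ 3 * Q.card : ℕ) := by
    refine h1.trans ?_
    push_cast
    gcongr
  have h4 : (3 • Q).card ≤ C ^ 3 * Q.card := by exact_mod_cast h3
  have hex : ∀ κ ∈ Q.image par, ∃ z ∈ Q, par z = κ := fun κ hκ => mem_image.mp hκ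
  choose! w hw1 hw2 using hex
  have h5 : ((Q.image par) ×ˢ Q).card ≤ (3 • Q).card := by
    apply card_le_card_of_injOn (fun x => w x.1 + x.2 + x.2)
    · rintro ⟨κ, z⟩ hx
      obtain ⟨hκ, hz⟩ := mem_product.mp (mem_coe.mp hx)
      have h6 : (3 : ℕ) • Q = Q + Q + Q := by
        rw [show (3 : ℕ) = 1 + 1 + 1 from rfl, add_nsmul, add_nsmul, one_nsmul]
      rw [h6]
      exact mem_coe.mpr (add_mem_add (add_mem_add (hw1 κ hκ) hz) hz)
    · rintro ⟨κ, z⟩ hx ⟨κ', z'⟩ hx' h
      obtain ⟨hκ, hz⟩ := mem_product.mp (mem_coe.mp hx)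
      obtain ⟨hκ', hz'⟩ := mem_product.mp (mem_coe.mp hx')
      have h6 : w κ + z + z = w κ' + z' + z' := h
      have h7 : κ = κ' := by
        have h8 : par (w κ) = par (w κ') := by
          funext t
          have h9 := congrFun h6 t
          simp only [Pi.add_apply] at h9
          simp only [par]
          omega
        simp only at hκ hκ'
        rw [← hw2 κ hκ, ← hw2 κ' hκ', h8]
      subst h7
      have h10 : z = z' := by
        funext t
        have h9 := congrFun h6 t
        simp only [Pi.add_apply] at h9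
        omega
      rw [h10]
  rw [card_product] at h5
  exact Nat.le_of_mul_le_mul_right (h5.trans h4) (card_pos.mpr hQ)

end Pool.MPc7c4cf.Layers
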