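import Pool.Agent.H.MP_c7c4cf_nt.Windows
import Pool.Agent.H.MP_c7c4cf_nt.helper38.Layers

/-!
Families of subsets of `A` in consecutive dyadic windows, with compatible maps to a lattice.
-/

set_option autoImplicit false

open Finset

namespace Pool.MPc7c4cf.Layers

variable {d : ℕ}

/-- A layered family: subsets `S j` of `A ∩ [2 ^ j X, 2 ^ (j + 1) X)` on which `φ` is injective,
such that `b + b'` belongs to `S (j + 1)` and `φ (b + b')` is the midpoint of `φ b` and `φ b'`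
whenever `b` and `b'` are distinct elements of `S j` with `b + b'` in `A`. -/
structure Layered (A : Finset ℕ) (X : ℕ) (S : ℕ → Finset ℕ) (φ : ℕ → Fin d → ℝ) : Prop where
  mem : ∀ j, ∀ b ∈ S j, b ∈ A ∧ 2 ^ j * X ≤ b ∧ b < 2 ^ (j + 1) * X
  inj : ∀ j, ∀ b ∈ S j, ∀ b' ∈ S j, φ b = φ b' → b = b'
  sum : ∀ j, ∀ b ∈ S j, ∀ b' ∈ S j, b ≠ b' → b + b' ∈ A →
    b + b' ∈ S (j + 1) ∧ φ b + φ b' = φ (b + b') + φ (b + b')

/-- The sets of size larger than `l` contain two points with a midpoint in the next set. -/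
theorem Layered.exists_pair {A : Finset ℕ} {X : ℕ} {S : ℕ → Finset ℕ} {φ : ℕ → Fin d → ℝ}
    (h : Layered A X S φ) (l : ℕ)
    (hl : ∀ B ⊆ A, (∀ b ∈ B, ∀ b' ∈ B, b ≠ b' → b + b' ∉ A) → B.card ≤ l) (j : ℕ)
    (F : Finset (Fin d → ℝ)) (hF : F ⊆ (S j).image φ) (hFc : l + 1 ≤ F.card) :
    ∃ p ∈ F, ∃ q ∈ F, p ≠ q ∧ ∃ z ∈ (S (j + 1)).image φ, p + q = z + z := by
  classical
  set B := (S j).filter fun b => φ b ∈ F with hB
  have h1 : F ⊆ B.image φ := by
    intro p hp
    obtain ⟨b, hb, rfl⟩ := mem_image.mp (hF hp)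
    exact mem_image.mpr ⟨b, mem_filter.mpr ⟨hb, hp⟩, rfl⟩
  have h2 : l + 1 ≤ B.card := hFc.trans ((card_le_card h1).trans card_image_le)
  by_contra hcon
  have h3 := hl B (fun b hb => (h.mem j b (mem_filter.mp hb).1).1) (by
    intro b hb b' hb' hne hA
    obtain ⟨hb1, hb2⟩ := mem_filter.mp hb
    obtain ⟨hb1', hb2'⟩ := mem_filter.mp hb'
    obtain ⟨h4, h5⟩ := h.sum j b hb1 b' hb1' hne hA
    exact hcon ⟨φ b, hb2, φ b', hb2', fun he => hne (h.inj j b hb1 b' hb1' he), φ (b + b'),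
      mem_image_of_mem _ h4, h5⟩)
  omega

/-- The number of windows met by `A` is bounded, so the layers stop. -/
theorem Layered.exists_empty {A : Finset ℕ} {X : ℕ} {S : ℕ → Finset ℕ} {φ : ℕ → Fin d → ℝ}
    (h : Layered A X S φ) (hA : ∀ a ∈ A, 0 < a) (l : ℕ)
    (hl : ∀ B ⊆ A, (∀ b ∈ B, ∀ b' ∈ B, b ≠ b' → b + b' ∉ A) → B.card ≤ l)
    (hne : (S 0).Nonempty) :
    ∃ a, 1 ≤ a ∧ 2 ^ (a + 1) ≤ 360 * l * (Nat.log 2 A.card + 1) ∧
      ∃ j, j + 1 ≤ 2 ^ a ∧ S (j + 1) = ∅ := by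
  classical
  obtain ⟨b₀, hb₀⟩ := hne
  obtain ⟨hb₀A, hb₀1, hb₀2⟩ := h.mem 0 b₀ hb₀
  have hX : 0 < X := by
    rcases Nat.eq_zero_or_pos X with h0 | h0
    · rw [h0] at hb₀2
      simp at hb₀2
    · exact h0
  have hXr : (0 : ℝ) < X := by exact_mod_cast hX
  set ψ : ℕ → ℝ := fun a => (a : ℝ) / X with hψ
  have hpos : ∀ a ∈ A, 0 < ψ a := by
    intro a ha
    have h1 : (0 : ℝ) < a := by exact_mod_cast hA a ha
    exact div_pos h1 hXr
  have hadd : ∀ a ∈ A, ∀ b ∈ A, a ≠ b → a + b ∈ A → ψ (a + b) = ψ a + ψ b := by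
    intro a _ b _ _ _
    simp only [hψ]
    push_cast
    ring
  have hn : 1 ≤ A.card := card_pos.mpr ⟨b₀, hb₀A⟩
  have hthin : thin A ψ A.card = dyadic A ψ := by
    unfold thin
    rw [filter_eq_self]
    intro k hk
    obtain ⟨a, ha, hak⟩ := mem_image.mp hk
    obtain ⟨h1, h2⟩ := (log_iff (hpos a ha) k).mp hak
    exact ⟨a, ha, h1, h2, card_filter_le _ _⟩
  set m := (dyadic A ψ).card with hm
  have hmb : m ≤ 6 * l * (6 * Nat.log 2 A.card + 9) := by
    have h1 := thin_bound hpos hadd l hl A.card hn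
    rw [hthin] at h1
    exact_mod_cast h1
  have hwin : ∀ j, (S j).Nonempty → ((j : ℕ) : ℤ) ∈ dyadic A ψ := by
    rintro j ⟨b, hb⟩
    obtain ⟨hbA, hb1, hb2⟩ := h.mem j b hb
    refine mem_image.mpr ⟨b, hbA, ?_⟩
    rw [log_iff (hpos b hbA)]
    have h1 : (2 : ℝ) ^ j * X ≤ b := by exact_mod_cast hb1
    have h2 : (b : ℝ) < 2 ^ (j + 1) * X := by exact_mod_cast hb2
    constructor
    · rw [hψ, le_div_iff₀ hXr, zpow_natCast]
      exact h1
    · have h3 : ((j : ℤ) + 1) = ((j + 1 : ℕ) : ℤ) := by push_cast; ring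
      rw [hψ, div_lt_iff₀ hXr, h3, zpow_natCast]
      exact h2
  have hmpos : 1 ≤ m := card_pos.mpr ⟨_, hwin 0 ⟨b₀, hb₀⟩⟩
  refine ⟨Nat.log 2 m + 1, by omega, ?_, ?_⟩
  · have h1 := Nat.pow_log_le_self 2 (x := m) (by omega)
    calc 2 ^ (Nat.log 2 m + 1 + 1) = 4 * 2 ^ Nat.log 2 m := by ring
      _ ≤ 4 * m := Nat.mul_le_mul_left _ h1
      _ ≤ 4 * (6 * l * (6 * Nat.log 2 A.card + 9)) := Nat.mul_le_mul_left _ hmb
      _ ≤ _ := by nlinarith [Nat.zero_le (l * Nat.log 2 A.card), Nat.zero_le l]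
  · by_contra hcon
    push Not at hcon
    have h1 := (Nat.lt_pow_succ_log_self (b := 2) (by norm_num) m).le
    have h2 : (range (m + 1)).card ≤ (dyadic A ψ).card := by
      apply card_le_card_of_injOn (fun j : ℕ => (j : ℤ))
      · intro j hj
        have hj' := mem_range.mp (mem_coe.mp hj)
        rcases Nat.eq_zero_or_pos j with h0 | h0
        · rw [h0]
          exact mem_coe.mpr (hwin 0 ⟨b₀, hb₀⟩)
        · have h3 := hcon (j - 1) (by
            have : j - 1 + 1 ≤ m := by omega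
            exact this.trans h1)
          have h4 : j - 1 + 1 = j := by omega
          rw [h4] at h3
          exact mem_coe.mpr (hwin j h3)
      · intro j _ j' _ h
        simpa using h
    rw [card_range] at h2
    omega

/-- Every set of `n` positive integers has a sum-free subset of more than `log₂ n` elements. -/
theorem exists_log (A : Finset ℕ) (hA : ∀ a ∈ A, 0 < a) (t : ℕ) (ht : 2 ^ t ≤ 2 * A.card) :
    ∃ B ⊆ A, (∀ b ∈ B, ∀ b' ∈ B, b ≠ b' → b + b' ∉ A) ∧ B.card = t := by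
  classical
  have key : ∀ t, 2 ^ t ≤ 2 * A.card → ∃ B ⊆ A, (∀ b ∈ B, ∀ b' ∈ B, b ≠ b' → b + b' ∉ A) ∧
      B.card = t ∧ (A.filter fun x => ¬ ∀ b ∈ B, x < b ∧ x + b ∉ A).card + 1 ≤ 2 ^ t := by
    intro t
    induction t with
    | zero =>
      intro _
      refine ⟨∅, empty_subset _, by simp, rfl, ?_⟩
      simp
    | succ t ih =>
      intro h
      have hpow : 2 ^ (t + 1) = 2 * 2 ^ t := by ring
      rw [hpow] at h
      obtain ⟨B, hBA, hB, hBc, hU⟩ := ih (by omega)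
      have hsplit : (A.filter fun x => ∀ b ∈ B, x < b ∧ x + b ∉ A).card +
          (A.filter fun x => ¬ ∀ b ∈ B, x < b ∧ x + b ∉ A).card = A.card :=
        card_filter_add_card_filter_not _
      have hne : (A.filter fun x => ∀ b ∈ B, x < b ∧ x + b ∉ A).Nonempty := by
        rw [← card_pos]
        omega
      obtain ⟨c, hc, hmax⟩ := exists_max_image _ id hne
      obtain ⟨hcA, hcB⟩ := mem_filter.mp hc
      have hcnB : c ∉ B := fun h => lt_irrefl c (hcB c h).1
      refine ⟨insert c B, insert_subset hcA hBA, ?_, ?_, ?_⟩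
      · intro x hx y hy hxy
        rcases mem_insert.mp hx with h1 | h1
        · rcases mem_insert.mp hy with h2 | h2
          · exact absurd (h1.trans h2.symm) hxy
          · rw [h1]
            exact (hcB y h2).2
        · rcases mem_insert.mp hy with h2 | h2
          · rw [h2, add_comm]
            exact (hcB x h1).2
          · exact hB x h1 y h2 hxy
      · rw [card_insert_of_notMem hcnB, hBc]
      · have h1 : (A.filter fun x => ¬ ∀ b ∈ insert c B, x < b ∧ x + b ∉ A) ⊆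
            insert c ((A.filter fun x => ¬ ∀ b ∈ B, x < b ∧ x + b ∉ A) ∪
              (A.filter fun x => x + c ∈ A)) := by
          intro x hx
          obtain ⟨hxA, hx2⟩ := mem_filter.mp hx
          rw [mem_insert, mem_union, mem_filter, mem_filter]
          by_contra hcon
          push Not at hcon
          obtain ⟨h3, h4, h5⟩ := hcon
          have h6 := h4 hxA
          apply hx2
          intro b hb
          rcases mem_insert.mp hb with h7 | h7
          · rw [h7]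
            have h8 := hmax x (mem_filter.mpr ⟨hxA, h6⟩)
            simp only [id] at h8
            exact ⟨by omega, h5 hxA⟩
          · exact h6 b h7
        have h2 : (A.filter fun x => x + c ∈ A).card ≤
            (A.filter fun x => ¬ ∀ b ∈ B, x < b ∧ x + b ∉ A).card := by
          apply card_le_card_of_injOn (fun x => x + c)
          · intro x hx
            obtain ⟨hxA, hxc⟩ := mem_filter.mp (mem_coe.mp hx)
            refine mem_coe.mpr (mem_filter.mpr ⟨hxc, fun h3 => ?_⟩)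
            have h4 := hmax (x + c) (mem_filter.mpr ⟨hxc, h3⟩)
            have h5 := hA x hxA
            simp only [id] at h4
            omega
          · intro x _ y _ h
            simpa using h
        have h3 := (card_le_card h1).trans ((card_insert_le _ _).trans
          (Nat.add_le_add_right (card_union_le _ _) 1))
        rw [hpow]
        omega
  obtain ⟨B, h1, h2, h3, _⟩ := key t ht
  exact ⟨B, h1, h2, h3⟩

/-- A set of lattice points which contains the midpoints of its elements. -/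
def MidClosed (G : Finset (Fin d → ℤ)) : Prop :=
  ∀ p ∈ G, ∀ q ∈ G, ∀ z, p + q = z + z → z ∈ G

theorem CapDense.mono {D D' : ℕ} {G G' : Finset (Fin d → ℤ)} {P : Finset (Fin d → ℝ)}
    (h : CapDense D G P) (hD : D ≤ D') (hG : G' ⊆ G) : CapDense D' G' P := by
  classical
  intro u r
  exact (card_le_card (filter_subset_filter _ hG)).trans ((h u r).trans
    (Nat.mul_le_mul_right _ hD))

/-- The first layer is thinned out, and symmetric sets with a dilate in it are small. -/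
theorem Layered.setup {A : Finset ℕ} {X : ℕ} {S : ℕ → Finset ℕ} {φ : ℕ → Fin d → ℝ}
    (h : Layered A X S φ) (l : ℕ)
    (hl : ∀ B ⊆ A, (∀ b ∈ B, ∀ b' ∈ B, b ≠ b' → b + b' ∉ A) → B.card ≤ l)
    (G : Finset (Fin d → ℤ)) (hSG : ∀ b ∈ S 0, ∃ z ∈ G, φ b = toR z) (hmid : MidClosed G)
    (D D₀ : ℕ) (hD1 : 1 ≤ D) (hD₀1 : 1 ≤ D₀) (hD₀ : G.card ≤ D₀ * (S 0).card)
    (hD : ∀ j, CapDense D G ((S (j + 1)).image φ)) :
    ∃ P' G' : Finset (Fin d → ℤ), (∀ p ∈ P', toR p ∈ (S 0).image φ) ∧ P' ⊆ G' ∧ MidClosed G' ∧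
      (S 0).card ≤ 2 * P'.card ∧ G'.card ≤ 2 * D₀ * P'.card ∧
      ∀ a, (∃ j, j + 1 ≤ 2 ^ a ∧ S (j + 1) = ∅) → ∀ (T : Finset (Fin d → ℤ)) (x : Fin d → ℤ),
        0 ∈ T → (∀ s ∈ T, -s ∈ T) → (∀ s ∈ T, x + 2 ^ a * s ∈ G') →
        T.card ≤ 2 * (2 * D * D₀ * (l + 2)) := by
  classical
  set P₀ := G.filter fun z => toR z ∈ (S 0).image φ with hP₀
  have hP₀S : P₀.image toR = (S 0).image φ := by
    ext p
    constructor
    · intro hp
      obtain ⟨z, hz, rfl⟩ := mem_image.mp hp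
      exact (mem_filter.mp hz).2
    · intro hp
      obtain ⟨b, hb, rfl⟩ := mem_image.mp hp
      obtain ⟨z, hz, hbz⟩ := hSG b hb
      rw [hbz]
      refine mem_image_of_mem _ (mem_filter.mpr ⟨hz, ?_⟩)
      rw [← hbz]
      exact mem_image_of_mem _ hb
  have hcard : P₀.card = (S 0).card := by
    rw [← card_image_of_injective P₀ toR_injective, hP₀S]
    exact card_image_of_injOn
      fun b hb b' hb' he => h.inj 0 b (mem_coe.mp hb) b' (mem_coe.mp hb') he
  obtain ⟨P', hP', G', hG', h1, h2, h3, h4⟩ := core (2 * D₀) G.card P₀ G rfl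
    (filter_subset _ _) hmid
  rw [hcard] at h4
  have h5 : D₀ * (S 0).card + G'.card ≤ D₀ * (2 * P'.card) := by nlinarith
  refine ⟨P', G', fun p hp => (mem_filter.mp (hP' hp)).2, h1, h2, ?_, ?_, ?_⟩
  · exact Nat.le_of_mul_le_mul_left ((Nat.le_add_right _ _).trans h5) hD₀1
  · have h6 : G'.card ≤ D₀ * (2 * P'.card) := (Nat.le_add_left _ _).trans h5
    calc G'.card ≤ D₀ * (2 * P'.card) := h6
      _ = _ := by ring
  · intro a hex T x h0T hT hxT
    obtain ⟨j, hj, hSj⟩ := hex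
    have hDD : 1 ≤ D * D₀ := Nat.one_le_iff_ne_zero.mpr (by positivity)
    have hD' : D ≤ 2 * D * D₀ := by nlinarith
    have hD₀' : 2 * D₀ ≤ 2 * D * D₀ := by nlinarith
    refine small_symm (l + 1) (2 * D * D₀) a
      (fun j => if j = 0 then P'.image toR else (S j).image φ) G' (by nlinarith) h2 ?_ ?_ ?_
      ⟨j, hj, ?_⟩ T x h0T hT hxT
    · intro u r hFc
      have h7 := hFc.trans ((h3 u r).trans (Nat.mul_le_mul_right _ hD₀'))
      have h8 := Nat.le_of_mul_le_mul_left h7 (by nlinarith)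
      have h9 : (P'.filter fun p => r ≤ dot u (toR p)).card ≤
          ((P'.image toR).filter fun p => r ≤ dot u p).card := by
        apply card_le_card_of_injOn toR
        · intro p hp
          obtain ⟨h10, h11⟩ := mem_filter.mp (mem_coe.mp hp)
          exact mem_coe.mpr (mem_filter.mpr ⟨mem_image_of_mem _ h10, h11⟩)
        · exact toR_injective.injOn
      simp only [if_true]
      omega
    · intro j
      simp only [Nat.add_eq_zero_iff, one_ne_zero, and_false, if_false]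
      exact (hD j).mono hD' hG'
    · intro j F hF hFc
      have hF' : F ⊆ (S j).image φ := by
        by_cases hj0 : j = 0
        · subst hj0
          simp only [if_true] at hF
          refine hF.trans ?_
          rw [← hP₀S]
          exact image_subset_image hP'
        · simpa only [hj0, if_false] using hF
      obtain ⟨p, hp, q, hq, _, z, hz, hpq⟩ := h.exists_pair l hl j F hF' hFc
      refine ⟨p, hp, q, hq, z, ?_, hpq⟩
      simpa only [Nat.add_eq_zero_iff, one_ne_zero, and_false, if_false] using hz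
    · simp only [Nat.add_eq_zero_iff, one_ne_zero, and_false, if_false]
      rw [hSj, image_empty]

/-- The points of `Z` with the parity of `z₁`, in new coordinates. -/
theorem exists_half (Z : Finset (Fin d → ℤ)) (z₁ : Fin d → ℤ) :
    ∃ Q : Finset (Fin d → ℤ), (∀ z, z ∈ Q ↔ z₁ + 2 * z ∈ Z) ∧
      (Z.filter fun z => par z = par z₁).card ≤ Q.card := by
  classical
  set Y := Z.filter fun z => par z = par z₁ with hY
  refine ⟨Y.image fun z => fun t => (z t - z₁ t) / 2, fun z => ?_, ?_⟩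
  · constructor
    · intro h
      obtain ⟨w, hw, rfl⟩ := mem_image.mp h
      obtain ⟨hw1, hw2⟩ := mem_filter.mp hw
      have h2 : z₁ + 2 * (fun t => (w t - z₁ t) / 2 : Fin d → ℤ) = w := by
        funext t
        have h3 := congrFun hw2 t
        simp only [par] at h3
        simp only [Pi.add_apply, Pi.mul_apply, Pi.ofNat_apply]
        omega
      rw [h2]
      exact hw1
    · intro h
      refine mem_image.mpr ⟨z₁ + 2 * z, mem_filter.mpr ⟨h, ?_⟩, ?_⟩
      · funext t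
        simp only [par, Pi.add_apply, Pi.mul_apply, Pi.ofNat_apply]
        omega
      · funext t
        simp only [Pi.add_apply, Pi.mul_apply, Pi.ofNat_apply]
        omega
  · have hinj : (Y.image fun z => fun t => (z t - z₁ t) / 2).card = Y.card := by
      apply card_image_of_injOn
      intro z hz w hw h
      obtain ⟨_, hz2⟩ := mem_filter.mp (mem_coe.mp hz)
      obtain ⟨_, hw2⟩ := mem_filter.mp (mem_coe.mp hw)
      funext t
      have h3 := congrFun hz2 t
      have h4 := congrFun hw2 t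
      have h5 := congrFun h t
      simp only [par] at h3 h4
      simp only at h5
      omega
    exact hinj.ge

/-- Sets without `l + 1` points of different parities. -/
theorem card_par_le' (P : Finset (Fin d → ℤ)) (l : ℕ)
    (hK : ∀ F ⊆ P, l + 1 ≤ F.card → ∃ p ∈ F, ∃ q ∈ F, p ≠ q ∧ ∃ z, p + q = z + z) :
    (P.image par).card ≤ l := by
  classical
  by_contra hcon
  push Not at hcon
  have hex : ∀ κ ∈ P.image par, ∃ z ∈ P, par z = κ := fun κ hκ => mem_image.mp hκ
  choose! w hw1 hw2 using hex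
  obtain ⟨p, hp, q, hq, hpq, z, hz⟩ := hK ((P.image par).image w) (by
    intro p hp
    obtain ⟨κ, hκ, rfl⟩ := mem_image.mp hp
    exact hw1 κ hκ) (by
    rw [card_image_of_injOn]
    · omega
    · intro κ hκ κ' hκ' h
      rw [← hw2 κ (mem_coe.mp hκ), ← hw2 κ' (mem_coe.mp hκ'), h])
  obtain ⟨κ, hκ, rfl⟩ := mem_image.mp hp
  obtain ⟨κ', hκ', rfl⟩ := mem_image.mp hq
  have h1 := par_eq_of_mid hz
  rw [hw2 κ hκ, hw2 κ' hκ'] at h1
  exact hpq (congrArg w h1)

/-- There are at most `2 ^ d` parities. -/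
theorem card_par_le_two_pow (Z : Finset (Fin d → ℤ)) : (Z.image par).card ≤ 2 ^ d := by
  classical
  have h1 : Z.image par ⊆ Fintype.piFinset (fun _ : Fin d => ({0, 1} : Finset ℤ)) := by
    intro p hp
    obtain ⟨z, _, rfl⟩ := mem_image.mp hp
    rw [Fintype.mem_piFinset]
    intro t
    simp only [par, mem_insert, mem_singleton]
    omega
  refine (card_le_card h1).trans ?_
  rw [Fintype.card_piFinset]
  simp

/-- The bound in dimension `d`. -/
theorem Layered.dimension_bound {A : Finset ℕ} {X : ℕ} {S : ℕ → Finset ℕ} {φ : ℕ → Fin d → ℝ}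
    (h : Layered A X S φ) (hA : ∀ a ∈ A, 0 < a) (l : ℕ)
    (hl : ∀ B ⊆ A, (∀ b ∈ B, ∀ b' ∈ B, b ≠ b' → b + b' ∉ A) → B.card ≤ l)
    (G : Finset (Fin d → ℤ)) (hSG : ∀ b ∈ S 0, ∃ z ∈ G, φ b = toR z) (hmid : MidClosed G)
    (D D₀ : ℕ)
    (hD1 : 1 ≤ D) (hD₀ : G.card ≤ D₀ * (S 0).card)
    (hD : ∀ j, CapDense D G ((S (j + 1)).image φ)) :
    (S 0).card ≤ 24 * D * D₀ * l * (360 * l * (Nat.log 2 A.card + 1)) ^ d := by
  classical
  rcases (S 0).eq_empty_or_nonempty with hS0 | hS0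
  · rw [hS0]
    exact Nat.zero_le _
  have hD₀1 : 1 ≤ D₀ := by
    rcases Nat.eq_zero_or_pos D₀ with h0 | h0
    · exfalso
      rw [h0, zero_mul] at hD₀
      obtain ⟨b, hb⟩ := hS0
      obtain ⟨z, hz, _⟩ := hSG b hb
      have h1 := card_pos.mpr ⟨z, hz⟩
      omega
    · exact h0
  obtain ⟨b, hb⟩ := hS0
  have hbA := (h.mem 0 b hb).1
  have hl1 : 1 ≤ l := by
    have h1 := hl {b} (singleton_subset_iff.mpr hbA) (by
      intro x hx y hy hxy
      exact absurd ((mem_singleton.mp hx).trans (mem_singleton.mp hy).symm) hxy)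
    simpa using h1
  obtain ⟨P', G', _, hPG, hmid', hN, _, hsmall⟩ := h.setup l hl G hSG hmid D D₀ hD1 hD₀1 hD₀ hD
  obtain ⟨a, _, ha, hex⟩ := h.exists_empty hA l hl ⟨b, hb⟩
  have hNpos : 1 ≤ (S 0).card := card_pos.mpr ⟨b, hb⟩
  have hP'ne : P'.Nonempty := card_pos.mp (by omega)
  obtain ⟨x, T, h0T, hT, hxT, hG'⟩ := large_symm a (2 ^ d) G' (hP'ne.mono hPG) hmid'
    (fun _ _ Z _ => card_par_le_two_pow Z)
  have h1 := hsmall a hex T x h0T hT hxT
  have h2 : ((2 : ℕ) ^ d) ^ (a + 1) = (2 ^ (a + 1)) ^ d := by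
    rw [← pow_mul, ← pow_mul, mul_comm]
  have h3 : (S 0).card ≤ 2 * ((2 ^ (a + 1)) ^ d * (2 * (2 * D * D₀ * (l + 2)))) := by
    refine hN.trans (Nat.mul_le_mul_left _ ((card_le_card hPG).trans (hG'.trans ?_)))
    rw [h2]
    exact Nat.mul_le_mul_left _ h1
  have h4 : ((2 : ℕ) ^ (a + 1)) ^ d ≤ (360 * l * (Nat.log 2 A.card + 1)) ^ d :=
    Nat.pow_le_pow_left ha d
  calc (S 0).card ≤ 2 * ((2 ^ (a + 1)) ^ d * (2 * (2 * D * D₀ * (l + 2)))) := h3
    _ = 8 * D * D₀ * (l + 2) * (2 ^ (a + 1)) ^ d := by ring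
    _ ≤ 8 * D * D₀ * (3 * l) * (360 * l * (Nat.log 2 A.card + 1)) ^ d := by
        apply Nat.mul_le_mul _ h4
        apply Nat.mul_le_mul_left
        omega
    _ = _ := by ring

open Pointwise in
/-- The bound for dense first layers. -/
theorem Layered.dense_bound {A : Finset ℕ} {X : ℕ} {S : ℕ → Finset ℕ} {φ : ℕ → Fin d → ℝ}
    (h : Layered A X S φ) (hA : ∀ a ∈ A, 0 < a) (h1Z : ∀ b ∈ S 1, ∃ z, φ b = toR z) (l : ℕ)
    (hl : ∀ B ⊆ A, (∀ b ∈ B, ∀ b' ∈ B, b ≠ b' → b + b' ∉ A) → B.card ≤ l)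
    (G : Finset (Fin d → ℤ)) (hSG : ∀ b ∈ S 0, ∃ z ∈ G, φ b = toR z) (hmid : MidClosed G)
    (D D₀ : ℕ)
    (hD1 : 1 ≤ D) (hD₀ : G.card ≤ D₀ * (S 0).card)
    (hD : ∀ j, CapDense D G ((S (j + 1)).image φ)) :
    (S 0).card ≤ D * (D₀ * l ^ 2) ^ (6 * Nat.log 2 l + 30) := by
  classical
  rcases (S 0).eq_empty_or_nonempty with hS0 | hS0
  · rw [hS0]
    exact Nat.zero_le _
  have hD₀1 : 1 ≤ D₀ := by
    rcases Nat.eq_zero_or_pos D₀ with h0 | h0
    · exfalso
      rw [h0, zero_mul] at hD₀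
      obtain ⟨b, hb⟩ := hS0
      obtain ⟨z, hz, _⟩ := hSG b hb
      have h1 := card_pos.mpr ⟨z, hz⟩
      omega
    · exact h0
  obtain ⟨b, hb⟩ := hS0
  have hbA := (h.mem 0 b hb).1
  have hn : 1 ≤ A.card := card_pos.mpr ⟨b, hbA⟩
  have hlog : Nat.log 2 A.card + 1 ≤ l := by
    obtain ⟨B, hB1, hB2, hB3⟩ := exists_log A hA (Nat.log 2 A.card + 1) (by
      have := Nat.pow_log_le_self 2 (x := A.card) (by omega)
      rw [pow_succ]
      omega)
    rw [← hB3]
    exact hl B hB1 hB2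
  rcases Nat.lt_or_ge l 2 with hl2 | hl2
  · have h1 : l = 1 := by omega
    have h2 : Nat.log 2 A.card = 0 := by omega
    have h3 : A.card < 2 := by
      have := Nat.lt_pow_succ_log_self (b := 2) (by norm_num) A.card
      rw [h2] at this
      simpa using this
    have h4 : (S 0).card ≤ A.card := card_le_card fun x hx => (h.mem 0 x hx).1
    have h5 : 1 ≤ D * (D₀ * l ^ 2) ^ (6 * Nat.log 2 l + 30) := by
      rw [h1]
      apply Nat.one_le_iff_ne_zero.mpr
      positivity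
    omega
  obtain ⟨P', G', hP'S, hPG, hmid', hN, hG'P, hsmall⟩ :=
    h.setup l hl G hSG hmid D D₀ hD1 hD₀1 hD₀ hD
  obtain ⟨a, ha1, ha, hex⟩ := h.exists_empty hA l hl ⟨b, hb⟩
  have hNpos : 1 ≤ (S 0).card := card_pos.mpr ⟨b, hb⟩
  have hP'ne : P'.Nonempty := card_pos.mp (by omega)
  obtain ⟨κ, hκ, hfib⟩ := exists_fiber par P' hP'ne
  obtain ⟨z₁, hz₁, rfl⟩ := mem_image.mp hκ
  have hparl : (P'.image par).card ≤ l := by
    apply card_par_le'
    intro F hF hFc
    obtain ⟨p, hp, q, hq, hpq, z, hz1, hz⟩ := h.exists_pair l hl 0 (F.image toR) (by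
      intro p hp
      obtain ⟨y, hy, rfl⟩ := mem_image.mp hp
      exact hP'S y (hF hy)) (by
      rw [card_image_of_injective _ toR_injective]
      exact hFc)
    obtain ⟨y, hy, rfl⟩ := mem_image.mp hp
    obtain ⟨y', hy', rfl⟩ := mem_image.mp hq
    obtain ⟨b, hb, rfl⟩ := mem_image.mp hz1
    obtain ⟨z, hbz⟩ := h1Z b hb
    refine ⟨y, hy, y', hy', fun he => hpq (congrArg toR he), z, toR_injective ?_⟩
    rw [toR_add, toR_add, ← hbz]
    exact hz
  obtain ⟨Q, hQ, hQc⟩ := exists_half G' z₁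
  have hPQ : P'.card ≤ l * Q.card := by
    refine hfib.trans (Nat.mul_le_mul hparl (le_trans ?_ hQc))
    exact card_le_card (filter_subset_filter _ hPG)
  have hQne : Q.Nonempty := by
    rw [← card_pos]
    by_contra h0
    have h1 : Q.card = 0 := by omega
    rw [h1, mul_zero] at hPQ
    omega
  have hmidQ : ∀ p ∈ Q, ∀ q ∈ Q, ∀ z, p + q = z + z → z ∈ Q := by
    intro p hp q hq z hz
    rw [hQ] at hp hq ⊢
    refine hmid' _ hp _ hq _ ?_
    have h2 : z₁ + 2 * p + (z₁ + 2 * q) = z₁ + z₁ + 2 * (p + q) := by ring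
    rw [h2, hz]
    ring
  have hsum : (Q + Q).card ≤ G'.card := by
    rw [← card_image_of_injective (Q + Q) (add_right_injective z₁)]
    apply card_le_card
    intro y hy
    obtain ⟨w, hw, rfl⟩ := mem_image.mp hy
    obtain ⟨p, hp, q, hq, rfl⟩ := mem_add.mp hw
    refine hmid' _ ((hQ p).mp hp) _ ((hQ q).mp hq) _ ?_
    ring
  set c := (2 * D₀ * l) ^ 3 with hc
  have hQpar : (Q.image par).card ≤ c := by
    apply card_par_mul_le Q _ hQne
    refine hsum.trans (hG'P.trans ?_)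
    rw [mul_assoc (2 * D₀)]
    exact Nat.mul_le_mul_left _ hPQ
  obtain ⟨x, T, h0T, hT, hxT, hQT⟩ := large_symm (a - 1) c Q hQne hmidQ
    (card_par_le Q c hmidQ (by
      intro F hF hFc
      obtain ⟨p, hp, q, hq, hpq, hpar⟩ := exists_ne_map_eq_of_card_lt_of_maps_to
        (s := F) (t := Q.image par) (f := par) (by omega)
        (fun y hy => mem_coe.mpr (mem_image_of_mem _ (hF (mem_coe.mp hy))))
      exact ⟨p, hp, q, hq, hpq, exists_mid hpar⟩))
  have hT2 := hsmall a hex T (z₁ + 2 * x) h0T hT (by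
    intro s hs
    have h1 := (hQ _).mp (hxT s hs)
    have h2 : a = (a - 1) + 1 := by omega
    have h3 : z₁ + 2 * x + 2 ^ a * s = z₁ + 2 * (x + 2 ^ (a - 1) * s) := by
      rw [h2, Nat.add_sub_cancel]
      ring
    rw [h3]
    exact h1)
  have ha2 : a - 1 + 1 = a := by omega
  rw [ha2] at hQT
  -- the exponent
  have haL : a ≤ 9 + 2 * Nat.log 2 l := by
    have h1 := Nat.lt_pow_succ_log_self (b := 2) (by norm_num) l
    have h2 : 2 ^ (a + 1) < 2 ^ (11 + 2 * Nat.log 2 l) := by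
      calc 2 ^ (a + 1) ≤ 360 * l * (Nat.log 2 A.card + 1) := ha
        _ ≤ 360 * l * l := Nat.mul_le_mul_left _ hlog
        _ < 512 * (l * l) := by nlinarith
        _ ≤ 512 * (2 ^ (Nat.log 2 l + 1) * 2 ^ (Nat.log 2 l + 1)) :=
            Nat.mul_le_mul_left _ (Nat.mul_le_mul h1.le h1.le)
        _ = 2 ^ (11 + 2 * Nat.log 2 l) := by
            rw [← pow_add, show (512 : ℕ) = 2 ^ 9 from by norm_num, ← pow_add]
            congr 1
            ring
    have h3 := (Nat.pow_lt_pow_iff_right (by norm_num : 1 < 2)).mp h2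
    omega
  have hbase : 2 * D₀ * l ≤ D₀ * l ^ 2 := by
    calc 2 * D₀ * l = D₀ * (2 * l) := by ring
      _ ≤ D₀ * (l * l) := Nat.mul_le_mul_left _ (Nat.mul_le_mul_right _ hl2)
      _ = _ := by ring
  have hbase1 : 1 ≤ D₀ * l ^ 2 := Nat.one_le_iff_ne_zero.mpr (by positivity)
  have hca : c ^ a ≤ (D₀ * l ^ 2) ^ (3 * a) := by
    rw [hc, ← pow_mul]
    exact Nat.pow_le_pow_left hbase _
  have hfront : 16 * l ^ 2 * D₀ ≤ (D₀ * l ^ 2) ^ 3 := by
    have h1 : 16 ≤ l ^ 4 := by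
      calc 16 = 2 ^ 4 := by norm_num
        _ ≤ l ^ 4 := Nat.pow_le_pow_left hl2 4
    have h2 : D₀ ≤ D₀ ^ 3 := Nat.le_self_pow (by norm_num) D₀
    calc 16 * l ^ 2 * D₀ ≤ l ^ 4 * l ^ 2 * D₀ ^ 3 := by gcongr
      _ = _ := by ring
  calc (S 0).card ≤ 2 * P'.card := hN
    _ ≤ 2 * (l * Q.card) := Nat.mul_le_mul_left _ hPQ
    _ ≤ 2 * (l * (c ^ a * T.card)) := by gcongr
    _ ≤ 2 * (l * (c ^ a * (2 * (2 * D * D₀ * (l + 2))))) := by gcongr
    _ = D * ((4 * (l + 2) * (2 * l) * D₀) * c ^ a) := by ring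
    _ ≤ D * ((D₀ * l ^ 2) ^ 3 * (D₀ * l ^ 2) ^ (3 * a)) := by
        apply Nat.mul_le_mul_left
        apply Nat.mul_le_mul _ hca
        refine le_trans ?_ hfront
        apply Nat.mul_le_mul_right
        nlinarith
    _ = D * (D₀ * l ^ 2) ^ (3 * a + 3) := by
        rw [← pow_add]
        congr 2
        ring
    _ ≤ D * (D₀ * l ^ 2) ^ (6 * Nat.log 2 l + 30) := by
        apply Nat.mul_le_mul_left
        apply Nat.pow_le_pow_right hbase1
        omega

/-- A largest sum-free subset. -/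
theorem exists_max (A : Finset ℕ) : ∃ B ⊆ A, (∀ b ∈ B, ∀ b' ∈ B, b ≠ b' → b + b' ∉ A) ∧
    ∀ B' ⊆ A, (∀ b ∈ B', ∀ b' ∈ B', b ≠ b' → b + b' ∉ A) → B'.card ≤ B.card := by
  classical
  set F := A.powerset.filter fun B => ∀ b ∈ B, ∀ b' ∈ B, b ≠ b' → b + b' ∉ A with hF
  have hFne : F.Nonempty := ⟨∅, mem_filter.mpr ⟨empty_mem_powerset _, by simp⟩⟩
  obtain ⟨B, hBF, hmax⟩ := F.exists_max_image card hFne
  obtain ⟨hBA, hB⟩ := mem_filter.mp hBF
  rw [mem_powerset] at hBA
  exact ⟨B, hBA, hB, fun B' hB' h => hmax B' (mem_filter.mpr ⟨mem_powerset.mpr hB', h⟩)⟩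

end Pool.MPc7c4cf.Layers
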